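import Mathlib
import Pool.Agent.W234.LP.Defs

/-!
Graph LP algebras over an arbitrary integral domain `R` with chosen elements `A_1, ..., A_n`.

The combinatorial notions (`StronglyConnected`, `IsEdgeMap`, `IsAcyclicMap`, `IsNested`,
`IsMaximalNested`) are those of `Pool.Agent.W234.LP.Defs`.
-/

namespace Pool.Agent.K7.H22.LPB

open Finset Pool.Agent.W234.LP
open scoped Classical

noncomputable section

variable {n : ℕ} {R : Type*} [CommRing R] [IsDomain R]

/-- The field of fractions of `R[X_1, ..., X_n]`. -/
abbrev Amb (n : ℕ) (R : Type*) [CommRing R] : Type _ := FractionRing (MvPolynomial (Fin n) R)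

/-- The initial cluster variable `X_i`. -/
def vX (R : Type*) [CommRing R] {n : ℕ} (i : Fin n) : Amb n R :=
  algebraMap (MvPolynomial (Fin n) R) (Amb n R) (MvPolynomial.X i)

/-- `Y_I`: the sum over the acyclic edge maps `f : I → [n]` of the products over `i ∈ I` of
`X_(f i)` (respectively `A_i` if `f i = i`), divided by the product of the `X_i`, `i ∈ I`. -/
def vY (A : Fin n → R) (Γ : Fin n → Fin n → Prop) (I : Finset (Fin n)) : Amb n R :=
  (∑ f ∈ univ.filter (fun f : I → Fin n => IsEdgeMap Γ I f ∧ IsAcyclicMap I f),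
    ∏ i : I, if f i = i then algebraMap R (Amb n R) (A i) else vX R (f i)) /
      ∏ i ∈ I, vX R i

/-- The cluster variables: the `X_i` and the `Y_I`, `I` strongly connected. -/
def clusterVariables (A : Fin n → R) (Γ : Fin n → Fin n → Prop) : Set (Amb n R) :=
  {z | (∃ i, z = vX R i) ∨ ∃ I, StronglyConnected Γ I ∧ z = vY A Γ I}

/-- The clusters: the `X_i`, `i ∈ L`, together with the `Y_S`, `S ∈ σ`, for a maximal nested
family `σ` whose support is the complement of `L`. -/
def IsCluster (A : Fin n → R) (Γ : Fin n → Fin n → Prop) (c : Set (Amb n R)) : Prop :=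
  ∃ (L : Finset (Fin n)) (σ : Finset (Finset (Fin n))), IsMaximalNested Γ σ ∧
    σ.biUnion id = Lᶜ ∧ c = {z | (∃ i ∈ L, z = vX R i) ∨ ∃ S ∈ σ, z = vY A Γ S}

/-- The cluster monomials: the products (with repetitions) of elements of one cluster. -/
def IsClusterMonomial (A : Fin n → R) (Γ : Fin n → Fin n → Prop) (z : Amb n R) : Prop :=
  ∃ c, IsCluster A Γ c ∧ z ∈ Submonoid.closure c

/-- The graph LP algebra: the `R`-subalgebra of `Frac(R[X_1, ..., X_n])` generated by the
cluster variables. -/
def graphLPAlgebra (A : Fin n → R) (Γ : Fin n → Fin n → Prop) : Subalgebra R (Amb n R) :=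
  Algebra.adjoin R (clusterVariables A Γ)

end

end Pool.Agent.K7.H22.LPB
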