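import Mathlib
import Pool.Agent.W234.LP.Defs

/-!
Multiplicities on a nested family are determined by the covering numbers of the vertices.
-/

namespace Pool.Agent.K7.H22.LPB

open Finset Pool.Agent.W234.LP
open scoped Classical

noncomputable section

variable {n : ℕ} {Γ : Fin n → Fin n → Prop}

/-- The covering number of the vertex `i`. -/
def cov (b : Finset (Fin n) → ℕ) (i : Fin n) : ℕ := ∑ S : Finset (Fin n), if i ∈ S then b S else 0

/-- The multiplicities are supported on a nested family. -/
def NestSupp (Γ : Fin n → Fin n → Prop) (b : Finset (Fin n) → ℕ) : Prop :=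
  ∃ σ : Finset (Finset (Fin n)), IsNested Γ σ ∧ ∀ S, b S ≠ 0 → S ∈ σ

/-- The maximal members of the support. -/
def mx (b : Finset (Fin n) → ℕ) : Finset (Finset (Fin n)) :=
  univ.filter (fun S => b S ≠ 0 ∧ ∀ T, b T ≠ 0 → S ⊆ T → T = S)

lemma cov_ne_zero (b : Finset (Fin n) → ℕ) (i : Fin n) :
    cov b i ≠ 0 ↔ ∃ S, i ∈ S ∧ b S ≠ 0 := by
  constructor
  · intro h
    by_contra hcon
    push Not at hcon
    apply h
    apply Finset.sum_eq_zero
    intro S _
    by_cases hi : i ∈ S
    · rw [if_pos hi, hcon S hi]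
    · rw [if_neg hi]
  · rintro ⟨S, hi, hb⟩ h
    have := (Finset.sum_eq_zero_iff.1 h) S (Finset.mem_univ _)
    rw [if_pos hi] at this
    exact hb this

lemma exists_mx (b : Finset (Fin n) → ℕ) (S : Finset (Fin n)) (hS : b S ≠ 0) :
    ∃ T ∈ mx b, S ⊆ T := by
  obtain ⟨T, hT, hmax⟩ := Finset.exists_max_image
    (univ.filter (fun T => b T ≠ 0 ∧ S ⊆ T)) Finset.card ⟨S, by simp [hS]⟩
  simp only [Finset.mem_filter, Finset.mem_univ, true_and] at hT hmax
  refine ⟨T, ?_, hT.2⟩
  simp only [mx, Finset.mem_filter, Finset.mem_univ, true_and]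
  refine ⟨hT.1, ?_⟩
  intro U hU hTU
  exact (Finset.eq_of_subset_of_card_le hTU (hmax U ⟨hU, hT.2.trans hTU⟩)).symm

lemma mem_mx_iff (b : Finset (Fin n) → ℕ) (h : NestSupp Γ b) (C : Finset (Fin n)) :
    C ∈ mx b ↔ IsComponent Γ (univ.filter (fun i => cov b i ≠ 0)) C := by
  obtain ⟨σ, hσ, hsupp⟩ := h
  have hsub : mx b ⊆ σ := by
    intro S hS
    simp only [mx, Finset.mem_filter, Finset.mem_univ, true_and] at hS
    exact hsupp S hS.1
  have hdis : ∀ I ∈ mx b, ∀ J ∈ mx b, I ≠ J → Disjoint I J := by
    intro I hI J hJ hne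
    rcases hσ.2.1 I (hsub hI) J (hsub hJ) with h | h | h
    · exact h
    · simp only [mx, Finset.mem_filter, Finset.mem_univ, true_and] at hI hJ
      exact absurd (hI.2 J hJ.1 h).symm hne
    · simp only [mx, Finset.mem_filter, Finset.mem_univ, true_and] at hI hJ
      exact absurd (hJ.2 I hI.1 h) hne
  have hU : (mx b).biUnion id = univ.filter (fun i => cov b i ≠ 0) := by
    ext i
    simp only [Finset.mem_biUnion, id, Finset.mem_filter, Finset.mem_univ, true_and]
    rw [cov_ne_zero]
    constructor
    · rintro ⟨S, hS, hi⟩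
      simp only [mx, Finset.mem_filter, Finset.mem_univ, true_and] at hS
      exact ⟨S, hi, hS.1⟩
    · rintro ⟨S, hi, hS⟩
      obtain ⟨T, hT, hST⟩ := exists_mx b S hS
      exact ⟨T, hT, hST hi⟩
  rw [hσ.2.2 (mx b) hsub hdis C, hU]

theorem uniq : ∀ (N : ℕ) (b b' : Finset (Fin n) → ℕ), NestSupp Γ b → NestSupp Γ b' →
    (∀ i, cov b i = cov b' i) → ∑ i, cov b i = N → b = b' := by
  intro N
  induction N using Nat.strong_induction_on with
  | _ N ih =>
  intro b b' hb hb' hcov hN
  have hM : mx b = mx b' := by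
    ext C
    rw [mem_mx_iff b hb, mem_mx_iff b' hb']
    simp only [hcov]
  by_cases hemp : mx b = ∅
  · have h0 : ∀ (c : Finset (Fin n) → ℕ), mx c = ∅ → ∀ S, c S = 0 := by
      intro c hc S
      by_contra hS
      obtain ⟨T, hT, _⟩ := exists_mx c S hS
      rw [hc] at hT
      exact absurd hT (Finset.notMem_empty _)
    funext S
    rw [h0 b hemp, h0 b' (hM ▸ hemp)]
  · obtain ⟨S0, hS0⟩ := Finset.nonempty_iff_ne_empty.2 hemp
    let one : Finset (Fin n) → ℕ := fun S => if S ∈ mx b then 1 else 0
    let b1 : Finset (Fin n) → ℕ := fun S => b S - one S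
    let b1' : Finset (Fin n) → ℕ := fun S => b' S - one S
    have hdec : ∀ S, b S = b1 S + one S := by
      intro S
      have : one S ≤ b S := by
        simp only [one]
        split_ifs with h
        · simp only [mx, Finset.mem_filter, Finset.mem_univ, true_and] at h
          omega
        · exact Nat.zero_le _
      simp only [b1]
      omega
    have hdec' : ∀ S, b' S = b1' S + one S := by
      intro S
      have : one S ≤ b' S := by
        simp only [one]
        split_ifs with h
        · rw [hM] at h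
          simp only [mx, Finset.mem_filter, Finset.mem_univ, true_and] at h
          omega
        · exact Nat.zero_le _
      simp only [b1']
      omega
    have hc : ∀ (c c1 : Finset (Fin n) → ℕ), (∀ S, c S = c1 S + one S) →
        ∀ i, cov c i = cov c1 i + cov one i := by
      intro c c1 h i
      simp only [cov]
      rw [← Finset.sum_add_distrib]
      refine Finset.sum_congr rfl ?_
      intro S _
      split_ifs
      · exact h S
      · rfl
    have h1 := hc b b1 hdec
    have h1' := hc b' b1' hdec'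
    have hns : NestSupp Γ b1 := by
      obtain ⟨σ, hσ, hs⟩ := hb
      refine ⟨σ, hσ, fun S hS => hs S ?_⟩
      rw [hdec]; omega
    have hns' : NestSupp Γ b1' := by
      obtain ⟨σ, hσ, hs⟩ := hb'
      refine ⟨σ, hσ, fun S hS => hs S ?_⟩
      rw [hdec']; omega
    have hsc : S0.Nonempty := by
      obtain ⟨σ, hσ, hs⟩ := hb
      simp only [mx, Finset.mem_filter, Finset.mem_univ, true_and] at hS0
      exact (hσ.1 S0 (hs S0 hS0.1)).1
    obtain ⟨i0, hi0⟩ := hsc
    have hpos : 0 < cov one i0 := by
      apply Nat.pos_of_ne_zero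
      rw [cov_ne_zero]
      refine ⟨S0, hi0, ?_⟩
      simp only [one, if_pos hS0]
      exact one_ne_zero
    have hlt : ∑ i, cov b1 i < N := by
      rw [← hN]
      apply Finset.sum_lt_sum
      · intro i _
        rw [h1]
        omega
      · refine ⟨i0, Finset.mem_univ _, ?_⟩
        rw [h1]
        omega
    have := ih _ hlt b1 b1' hns hns' (fun i => by
      have := hcov i
      rw [h1, h1'] at this
      omega) rfl
    funext S
    rw [hdec, hdec', this]

end

end Pool.Agent.K7.H22.LPB
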