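import Mathlib
import Pool.Agent.K7.H22.LPB.Defs
import Pool.Agent.K7.H22.LPB.Uniq

/-!
Linear independence of the cluster monomials of a graph LP algebra.
-/

namespace Pool.Agent.K7.H22.LPB

open Finset Pool.Agent.W234.LP
open scoped Classical

noncomputable section

variable {n : ℕ} {R : Type*} [CommRing R] [IsDomain R]

/-- Polynomials `X^e Q` with distinct exponents `e` and `Q(0) ≠ 0` are linearly independent. -/
lemma indep_poly {ι : Type*} (s : Finset ι) (g : ι → R) (e : ι → (Fin n →₀ ℕ))
    (Q : ι → MvPolynomial (Fin n) R) (hQ : ∀ z ∈ s, MvPolynomial.coeff 0 (Q z) ≠ 0)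
    (he : ∀ z ∈ s, ∀ w ∈ s, e z = e w → z = w)
    (hsum : ∑ z ∈ s, MvPolynomial.C (g z) * (MvPolynomial.monomial (e z) 1 * Q z) = 0) :
    ∀ z ∈ s, g z = 0 := by
  by_contra hcon
  push Not at hcon
  obtain ⟨z1, hz1, hg1⟩ := hcon
  obtain ⟨z0, hz0, hmin⟩ := Finset.exists_min_image (s.filter (fun z => g z ≠ 0))
    (fun z => (e z).degree) ⟨z1, by simp [hz1, hg1]⟩
  rw [Finset.mem_filter] at hz0
  have hcoeff := congrArg (MvPolynomial.coeff (e z0)) hsum
  rw [MvPolynomial.coeff_sum, MvPolynomial.coeff_zero,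
    Finset.sum_eq_single z0] at hcoeff
  · rw [MvPolynomial.coeff_C_mul, MvPolynomial.coeff_monomial_mul', if_pos le_rfl, tsub_self,
      one_mul] at hcoeff
    exact mul_ne_zero hz0.2 (hQ z0 hz0.1) hcoeff
  · intro z hz hne
    rw [MvPolynomial.coeff_C_mul, MvPolynomial.coeff_monomial_mul']
    by_cases hg : g z = 0
    · rw [hg, zero_mul]
    · rw [if_neg, mul_zero]
      intro hle
      have h1 := hmin z (Finset.mem_filter.2 ⟨hz, hg⟩)
      have h2 : (e z).degree + (e z0 - e z).degree = (e z0).degree := by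
        rw [← map_add, add_tsub_cancel_of_le hle]
      have h3 : (e z0 - e z).degree = 0 := by
        have : (e z0).degree ≤ (e z).degree := h1
        omega
      rw [Finsupp.degree_eq_zero_iff] at h3
      have h4 : e z = e z0 := by
        rw [← add_tsub_cancel_of_le hle, h3, add_zero]
      exact hne (he z hz z0 hz0.1 h4)
  · intro h
    exact absurd hz0.1 h

/-- The numerator of `Y_I`. -/
def num (A : Fin n → R) (Γ : Fin n → Fin n → Prop) (I : Finset (Fin n)) :
    MvPolynomial (Fin n) R :=
  ∑ f ∈ univ.filter (fun f : I → Fin n => IsEdgeMap Γ I f ∧ IsAcyclicMap I f),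
    ∏ i : I, if f i = i then MvPolynomial.C (A i) else MvPolynomial.X (f i)

lemma vY_eq_num (A : Fin n → R) (Γ : Fin n → Fin n → Prop) (I : Finset (Fin n)) :
    vY A Γ I = algebraMap _ (Amb n R) (num A Γ I) / ∏ i ∈ I, vX R i := by
  rw [vY, num, map_sum]
  congr 1
  refine Finset.sum_congr rfl ?_
  intro f _
  rw [map_prod]
  refine Finset.prod_congr rfl ?_
  intro i _
  split_ifs
  · rw [IsScalarTower.algebraMap_apply R (MvPolynomial (Fin n) R) (Amb n R),
      MvPolynomial.algebraMap_eq]
  · rfl

lemma coeff_num (A : Fin n → R) (Γ : Fin n → Fin n → Prop) (I : Finset (Fin n)) :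
    MvPolynomial.coeff 0 (num A Γ I) = ∏ i : I, A i := by
  rw [num, ← MvPolynomial.constantCoeff_eq, map_sum,
    Finset.sum_eq_single (fun i : I => (i : Fin n))]
  · simp
  · intro f hf hne
    rw [map_prod]
    have : ∃ i, f i ≠ i := by
      by_contra hcon
      push Not at hcon
      exact hne (funext hcon)
    obtain ⟨i, hi⟩ := this
    apply Finset.prod_eq_zero (Finset.mem_univ i)
    rw [if_neg hi]
    simp
  · intro h
    exfalso
    apply h
    simp only [Finset.mem_filter, Finset.mem_univ, true_and]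
    refine ⟨fun i => Or.inl rfl, ?_⟩
    intro a ha
    obtain ⟨c, hc, _⟩ := Relation.TransGen.head'_iff.1 ha
    obtain ⟨hne, hmem, hc2⟩ := hc
    exact hne hc2

lemma vX_ne_zero (i : Fin n) : (vX R i : Amb n R) ≠ 0 := by
  rw [vX, Ne, IsFractionRing.to_map_eq_zero_iff]
  exact MvPolynomial.X_ne_zero i

/-- The monomial with exponents `a`, `b`. -/
def monXY (A : Fin n → R) (Γ : Fin n → Fin n → Prop) (a : Fin n → ℕ)
    (b : Finset (Fin n) → ℕ) : Amb n R :=
  (∏ i, vX R i ^ a i) * ∏ S : Finset (Fin n), vY A Γ S ^ b S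

/-- The exponents of cluster monomials. -/
def Good (Γ : Fin n → Fin n → Prop) (a : Fin n → ℕ) (b : Finset (Fin n) → ℕ) : Prop :=
  NestSupp Γ b ∧ ∀ i, a i ≠ 0 → cov b i = 0

lemma exists_pres (A : Fin n → R) (Γ : Fin n → Fin n → Prop) (z : Amb n R)
    (hz : IsClusterMonomial A Γ z) : ∃ a b, Good Γ a b ∧ z = monXY A Γ a b := by
  obtain ⟨c, ⟨L, σ, hσ, hL, rfl⟩, hz⟩ := hz
  have key : ∃ a b, (∀ i, a i ≠ 0 → i ∈ L) ∧ (∀ S, b S ≠ 0 → S ∈ σ) ∧ z = monXY A Γ a b := by
    induction hz using Submonoid.closure_induction with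
    | mem x hx =>
      rcases hx with ⟨i, hi, rfl⟩ | ⟨S, hS, rfl⟩
      · refine ⟨Pi.single i 1, 0, ?_, ?_, ?_⟩
        · intro j hj
          by_cases h : j = i
          · rw [h]; exact hi
          · rw [Pi.single_eq_of_ne h] at hj
            exact absurd rfl hj
        · intro S hS
          exact absurd rfl hS
        · rw [monXY, Finset.prod_eq_single i]
          · simp
          · intro j _ hj
            rw [Pi.single_eq_of_ne hj, pow_zero]
          · intro h
            exact absurd (Finset.mem_univ _) h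
      · refine ⟨0, Pi.single S 1, ?_, ?_, ?_⟩
        · intro j hj
          exact absurd rfl hj
        · intro T hT
          by_cases h : T = S
          · rw [h]; exact hS
          · rw [Pi.single_eq_of_ne h] at hT
            exact absurd rfl hT
        · rw [monXY, Finset.prod_eq_single (s := (univ : Finset (Finset (Fin n)))) S]
          · simp
          · intro j _ hj
            rw [Pi.single_eq_of_ne hj, pow_zero]
          · intro h
            exact absurd (Finset.mem_univ _) h
    | one => exact ⟨0, 0, fun i h => absurd rfl h, fun S h => absurd rfl h, by simp [monXY]⟩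
    | mul x w _ _ hx hw =>
      obtain ⟨a, b, h1, h2, rfl⟩ := hx
      obtain ⟨a', b', h1', h2', rfl⟩ := hw
      refine ⟨a + a', b + b', ?_, ?_, ?_⟩
      · intro i hi
        rw [Pi.add_apply] at hi
        by_cases h : a i = 0
        · exact h1' i (by omega)
        · exact h1 i h
      · intro S hS
        rw [Pi.add_apply] at hS
        by_cases h : b S = 0
        · exact h2' S (by omega)
        · exact h2 S h
      · simp only [monXY, Pi.add_apply, pow_add, Finset.prod_mul_distrib]
        ring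
  obtain ⟨a, b, h1, h2, h3⟩ := key
  refine ⟨a, b, ⟨⟨σ, hσ.1, h2⟩, ?_⟩, h3⟩
  intro i hi
  by_contra hcon
  rw [← Ne, cov_ne_zero] at hcon
  obtain ⟨S, hiS, hS⟩ := hcon
  have h4 : i ∈ σ.biUnion id := Finset.mem_biUnion.2 ⟨S, h2 S hS, hiS⟩
  rw [hL, Finset.mem_compl] at h4
  exact h4 (h1 i hi)

/-- Clearing denominators. -/
lemma clear (A : Fin n → R) (Γ : Fin n → Fin n → Prop) (a : Fin n → ℕ)
    (b : Finset (Fin n) → ℕ) (M : ℕ) (hM : ∀ i, cov b i ≤ M) :
    (∏ i, vX R i ^ M) * monXY A Γ a b =
      algebraMap (MvPolynomial (Fin n) R) (Amb n R)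
        (MvPolynomial.monomial (Finsupp.equivFunOnFinite.symm (fun i => M + a i - cov b i)) 1 *
          ∏ S : Finset (Fin n), num A Γ S ^ b S) := by
  have h1 : ∏ S : Finset (Fin n), vY A Γ S ^ b S =
      (∏ S : Finset (Fin n), (algebraMap _ (Amb n R) (num A Γ S)) ^ b S) /
        ∏ i, vX R i ^ cov b i := by
    have h2 : ∏ S : Finset (Fin n), vY A Γ S ^ b S =
        (∏ S : Finset (Fin n), (algebraMap _ (Amb n R) (num A Γ S)) ^ b S) /
          ∏ S : Finset (Fin n), (∏ i ∈ S, vX R i) ^ b S := by
      rw [← Finset.prod_div_distrib]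
      refine Finset.prod_congr rfl ?_
      intro S _
      rw [vY_eq_num, div_pow]
    rw [h2]
    congr 1
    have h3 : ∀ S : Finset (Fin n), (∏ i ∈ S, vX R i) ^ b S =
        ∏ i, vX R i ^ (if i ∈ S then b S else 0) := by
      intro S
      rw [← Finset.prod_pow]
      rw [← Finset.prod_subset (Finset.subset_univ S)]
      · refine Finset.prod_congr rfl ?_
        intro i hi
        rw [if_pos hi]
      · intro i _ hi
        rw [if_neg hi, pow_zero]
    simp only [h3]
    rw [Finset.prod_comm]
    refine Finset.prod_congr rfl ?_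
    intro i _
    rw [cov, Finset.prod_pow_eq_pow_sum]
  have h4 : algebraMap (MvPolynomial (Fin n) R) (Amb n R)
      (MvPolynomial.monomial (Finsupp.equivFunOnFinite.symm (fun i => M + a i - cov b i)) 1) =
      ∏ i, vX R i ^ (M + a i - cov b i) := by
    rw [MvPolynomial.monomial_eq, MvPolynomial.C_1, one_mul, Finsupp.prod_fintype _ _ (by simp),
      map_prod]
    refine Finset.prod_congr rfl ?_
    intro i _
    rw [map_pow]
    rfl
  rw [map_mul, h4, monXY, h1, map_prod]
  simp only [map_pow]
  have h5 : (∏ i, vX R i ^ cov b i : Amb n R) ≠ 0 :=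
    Finset.prod_ne_zero_iff.2 (fun i _ => pow_ne_zero _ (vX_ne_zero i))
  have h6 : (∏ i, vX R i ^ M : Amb n R) * (∏ i, vX R i ^ a i) =
      (∏ i, vX R i ^ (M + a i - cov b i)) * ∏ i, vX R i ^ cov b i := by
    rw [← Finset.prod_mul_distrib, ← Finset.prod_mul_distrib]
    refine Finset.prod_congr rfl ?_
    intro i _
    rw [← pow_add, ← pow_add]
    congr 1
    have := hM i
    omega
  rw [← mul_assoc, h6, mul_assoc, mul_div_cancel₀ _ h5]

theorem indep (A : Fin n → R) (hA : ∀ i, A i ≠ 0) (Γ : Fin n → Fin n → Prop)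
    (s : Finset (Amb n R)) (hs : ∀ z ∈ s, IsClusterMonomial A Γ z) (g : Amb n R → R)
    (hsum : ∑ z ∈ s, g z • z = 0) : ∀ z ∈ s, g z = 0 := by
  have hpres : ∀ z ∈ s, ∃ a b, Good Γ a b ∧ z = monXY A Γ a b :=
    fun z hz => exists_pres A Γ z (hs z hz)
  choose! a b hgood hzab using hpres
  let M : ℕ := ∑ z ∈ s, ∑ i, cov (b z) i
  have hM : ∀ z ∈ s, ∀ i, cov (b z) i ≤ M := by
    intro z hz i
    calc cov (b z) i ≤ ∑ i, cov (b z) i :=
          Finset.single_le_sum (f := fun i => cov (b z) i) (fun _ _ => Nat.zero_le _)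
            (Finset.mem_univ i)
      _ ≤ M := Finset.single_le_sum (f := fun z => ∑ i, cov (b z) i) (fun _ _ => Nat.zero_le _) hz
  apply indep_poly s g
    (fun z => Finsupp.equivFunOnFinite.symm (fun i => M + a z i - cov (b z) i))
    (fun z => ∏ S : Finset (Fin n), num A Γ S ^ b z S)
  · intro z _
    rw [← MvPolynomial.constantCoeff_eq, map_prod]
    apply Finset.prod_ne_zero_iff.2
    intro S _
    rw [map_pow, MvPolynomial.constantCoeff_eq, coeff_num]
    exact pow_ne_zero _ (Finset.prod_ne_zero_iff.2 (fun i _ => hA i))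
  · intro z hz w hw h
    have h1 : ∀ i, M + a z i - cov (b z) i = M + a w i - cov (b w) i := by
      intro i
      exact congrFun (Finsupp.equivFunOnFinite.symm.injective h) i
    have h2 : ∀ i, a z i = a w i ∧ cov (b z) i = cov (b w) i := by
      intro i
      have e1 := hM z hz i
      have e2 := hM w hw i
      have e3 := h1 i
      have e4 := (hgood z hz).2 i
      have e5 := (hgood w hw).2 i
      by_cases h6 : a z i = 0 <;> by_cases h7 : a w i = 0
      · omega
      · have := e5 h7
        omega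
      · have := e4 h6
        omega
      · have := e4 h6
        have := e5 h7
        omega
    have h3 : a z = a w := funext fun i => (h2 i).1
    have h4 : b z = b w := uniq _ (b z) (b w) (hgood z hz).1 (hgood w hw).1
      (fun i => (h2 i).2) rfl
    rw [hzab z hz, hzab w hw, h3, h4]
  · apply IsFractionRing.injective (MvPolynomial (Fin n) R) (Amb n R)
    rw [map_zero, map_sum]
    have h1 : ∀ z ∈ s, algebraMap (MvPolynomial (Fin n) R) (Amb n R)
        (MvPolynomial.C (g z) * (MvPolynomial.monomial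
          (Finsupp.equivFunOnFinite.symm (fun i => M + a z i - cov (b z) i)) 1 *
            ∏ S : Finset (Fin n), num A Γ S ^ b z S)) = (∏ i, vX R i ^ M) * (g z • z) := by
      intro z hz
      rw [map_mul, ← clear A Γ (a z) (b z) M (hM z hz), ← hzab z hz, Algebra.smul_def,
        IsScalarTower.algebraMap_apply R (MvPolynomial (Fin n) R) (Amb n R),
        MvPolynomial.algebraMap_eq]
      ring
    rw [Finset.sum_congr rfl h1, ← Finset.mul_sum, hsum, mul_zero]

end

end Pool.Agent.K7.H22.LPB
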